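import Pool.Agent.TMX.Stmts4

/-!
# Squad TMX, row ChF: the final inequality for chains
-/

namespace Pool.Agent.TMX.H11

open Finset
open Pool.Agent.TMX
open Pool.Agent.Helper51_Max (I IsMax)
open Pool.Agent.Helper37_EM (var var_add abs_le_var)

theorem chF_mirror (hB : ChB) (hR : ChR) (hD : ChD) (hVB : VB) (hRe : Reach) (hRef : Refl)
    (hRef2 : Refl2) (N : ℕ) (g M : ℕ → ℝ) (hM : IsMax N g M) (p q : ℕ) (T : ℝ)
    (hC : Ch N g p q T) (hq : q ≤ N) :
    ((N : ℝ) + 1) * ((g q - M N) + T) ≤ N * var g p N + ∑ i ∈ Ioc p N, g i := by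
  have hpq : p ≤ q := (hB N g).2.1 p q T hC
  have h1 := hR hB N g p q T hq hC
  have h2 := hD hVB hRe hB N (fun i => g (N - i)) (fun i => M (N - i)) ((hRef N g M).1 hM)
    (N - q) (N - p) T h1 (Nat.sub_le _ _)
  have h3 := (hRef2 N g M).2.2.1 p (hpq.trans hq)
  have h4 := (hRef2 N g M).2.2.2 p (hpq.trans hq)
  rw [h3] at h2
  have h5 : ∑ i ∈ range (N - p), (fun i => g (N - i)) i = ∑ i ∈ Ioc p N, g i := h4
  rw [h5] at h2
  rw [Nat.sub_sub_self hq, Nat.sub_zero] at h2
  exact h2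

theorem sum_two (N : ℕ) (g : ℕ → ℝ) (hg : ∀ i, 0 ≤ g i) (s t : ℕ) (hst : s < t) (htN : t ≤ N) :
    ∑ i ∈ range s, g i + g s + g t + ∑ i ∈ Ioc t N, g i ≤ ∑ i ∈ range (N + 1), g i := by
  have h1 : ∑ i ∈ range s, g i + g s = ∑ i ∈ range (s + 1), g i := (sum_range_succ _ _).symm
  have h2 : g t + ∑ i ∈ Ioc t N, g i = ∑ i ∈ Icc t N, g i := by
    rw [← Finset.Ioc_insert_left htN, sum_insert (by simp)]
  have h3 : Disjoint (range (s + 1)) (Icc t N) := by
    rw [Finset.disjoint_left]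
    intro i hi hi2
    rw [mem_range] at hi
    rw [mem_Icc] at hi2
    omega
  rw [h1, add_assoc, h2, ← sum_union h3]
  refine sum_le_sum_of_subset_of_nonneg ?_ fun i _ _ => hg i
  intro i hi
  rw [mem_union, mem_range, mem_Icc] at hi
  rw [mem_range]
  omega

theorem sum_left (N : ℕ) (g : ℕ → ℝ) (hg : ∀ i, 0 ≤ g i) (s : ℕ) (hs : s ≤ N) :
    ∑ i ∈ range s, g i + g s ≤ ∑ i ∈ range (N + 1), g i := by
  rw [← sum_range_succ]
  refine sum_le_sum_of_subset_of_nonneg ?_ fun i _ _ => hg i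
  intro i hi
  rw [mem_range] at hi ⊢
  omega

theorem sum_right (N : ℕ) (g : ℕ → ℝ) (hg : ∀ i, 0 ≤ g i) (s : ℕ) (hs : s ≤ N) :
    g s + ∑ i ∈ Ioc s N, g i ≤ ∑ i ∈ range (N + 1), g i := by
  have h2 : g s + ∑ i ∈ Ioc s N, g i = ∑ i ∈ Icc s N, g i := by
    rw [← Finset.Ioc_insert_left hs, sum_insert (by simp)]
  rw [h2]
  refine sum_le_sum_of_subset_of_nonneg ?_ fun i _ _ => hg i
  intro i hi
  rw [mem_Icc] at hi
  rw [mem_range]
  omega

/-- **ChF.** -/
theorem chF : ChF := by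
  intro hB hR hD hVB hRe hMe hRef hRef2 N g M hM i₀ hi₀ hz p q T hC hq
  have hpq : p ≤ q := (hB N g).2.1 p q T hC
  have hg := hM.nonneg
  have hN0 : (0 : ℝ) ≤ (N : ℝ) := Nat.cast_nonneg N
  rcases le_or_gt q i₀ with h1 | h1
  · -- the chain is left of the zero
    have h2 := hD hVB hRe hB N g M hM p q T hC hq
    have h3 := (hMe N g M hM).1 N le_rfl
    have h4 : var g 0 N = var g 0 q + var g q i₀ + var g i₀ N := by
      rw [var_add (Nat.zero_le q) (h1.trans hi₀), var_add h1 hi₀, add_assoc]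
    have h5 := abs_le_var g h1
    have h6 := abs_le_var g hi₀
    rw [hz, sub_zero, abs_of_nonneg (hg q)] at h5
    have h7 := sum_left N g hg q hq
    have h8 : 0 ≤ var g i₀ N := (abs_nonneg _).trans h6
    have h9 : N * (var g 0 q + g q) ≤ N * var g 0 N :=
      mul_le_mul_of_nonneg_left (by linarith) hN0
    have e1 : ((N : ℝ) + 1) * (g p + T + g q - M 0 - M N) =
        ((N : ℝ) + 1) * ((g p - M 0) + T) + (N * g q + g q) - ((N : ℝ) + 1) * M N := by ring
    rw [e1]
    have e2 : (N : ℝ) * (var g 0 q + g q) = N * var g 0 q + N * g q := by ring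
    linarith
  rcases le_or_gt i₀ p with h1' | h1'
  · -- the chain is right of the zero
    have h2 := chF_mirror hB hR hD hVB hRe hRef hRef2 N g M hM p q T hC hq
    have h3 := (hMe N g M hM).1 0 (Nat.zero_le _)
    have hp : p ≤ N := hpq.trans hq
    have h4 : var g 0 N = var g 0 i₀ + var g i₀ p + var g p N := by
      rw [var_add (Nat.zero_le p) hp, var_add (Nat.zero_le i₀) h1']
    have h5 := abs_le_var g h1'
    have h6 := abs_le_var g (Nat.zero_le i₀)
    rw [hz, zero_sub, abs_neg, abs_of_nonneg (hg p)] at h5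
    have h7 := sum_right N g hg p hp
    have h8 : 0 ≤ var g 0 i₀ := (abs_nonneg _).trans h6
    have h9 : N * (g p + var g p N) ≤ N * var g 0 N :=
      mul_le_mul_of_nonneg_left (by linarith) hN0
    have e1 : ((N : ℝ) + 1) * (g p + T + g q - M 0 - M N) =
        ((N : ℝ) + 1) * ((g q - M N) + T) + (N * g p + g p) - ((N : ℝ) + 1) * M 0 := by ring
    rw [e1]
    have e2 : (N : ℝ) * (g p + var g p N) = N * g p + N * var g p N := by ring
    linarith
  · -- the zero is in the chain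
    obtain ⟨s, t, Q, T₁, T₂, hC1, hs, ht, hVG, hC2, rfl⟩ := (hB N g).2.2.2.1 p q T i₀ hC h1' h1.le
    have htq : t ≤ q := (hB N g).2.1 t q T₂ hC2
    have htN : t ≤ N := htq.trans hq
    have hsN : s ≤ N := by omega
    have h2 := hD hVB hRe hB N g M hM p s T₁ hC1 hsN
    have h3 := chF_mirror hB hR hD hVB hRe hRef hRef2 N g M hM t q T₂ hC2 hq
    have h4 := hVG.iii
    have h5 := sum_two N g hg s t (by omega) htN
    have h6 : var g 0 N = var g 0 s + (var g s i₀ + var g i₀ t) + var g t N := by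
      rw [var_add (Nat.zero_le t) htN, var_add (Nat.zero_le s) (show s ≤ t by omega),
        var_add hs.le ht]
    have h7 := abs_le_var g hs.le
    have h8 := abs_le_var g ht
    rw [hz, sub_zero, abs_of_nonneg (hg s)] at h7
    rw [hz, zero_sub, abs_neg, abs_of_nonneg (hg t)] at h8
    have h9 : (N : ℝ) * (var g 0 s + (g s + g t) + var g t N) ≤ N * var g 0 N :=
      mul_le_mul_of_nonneg_left (by linarith) hN0
    have e1 : ((N : ℝ) + 1) * (g p + (T₁ + (g s + g t - 2 * Q) + T₂) + g q - M 0 - M N) =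
        ((N : ℝ) + 1) * ((g p - M 0) + T₁) + ((N : ℝ) + 1) * ((g q - M N) + T₂) +
        (N * (g s + g t) + (g s + g t)) - 2 * ((N : ℝ) + 1) * Q := by ring
    rw [e1]
    have e2 : (N : ℝ) * (var g 0 s + (g s + g t) + var g t N) =
        N * var g 0 s + N * (g s + g t) + N * var g t N := by ring
    linarith

end Pool.Agent.TMX.H11
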